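import Pool.Agent.H242.GX.Stm5

/-! Project GX (helper242), part GX5-LIM4: the limit of the derivative (helper539). -/

set_option autoImplicit false

open Set Filter Topology

namespace Pool.Agent.H539.GX

open Pool.Agent.H242.GX

theorem step1 {y y₁ κ κ₁ : ℝ → ℝ} {δ M t₁ B κ₀ : ℝ} (h : YD y y₁ κ κ₁ δ M) (ht₁ : 0 < t₁)
    (ht₁δ : t₁ < δ) (hB : 0 < B) (hκ₀ : 0 < κ₀)
    (hb : ∀ t : ℝ, 0 < t → t ≤ t₁ → |y₁ t| ≤ B ∧ y t ≤ B * t ∧ |κ t - κ₀| ≤ B * t) :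
    ∃ t₂ : ℝ, 0 < t₂ ∧ t₂ ≤ t₁ ∧ ∀ t : ℝ, 0 < t → t ≤ t₂ → 0 < y₁ t := by
  set a : ℝ := min t₁ (κ₀ / (2 * B)) with ha
  have ha0 : 0 < a := lt_min ht₁ (by positivity)
  have hat : a ≤ t₁ := min_le_left _ _
  have hκ : ∀ t : ℝ, 0 < t → t ≤ a → 0 < κ t := by
    intro t ht hta
    have h1 := (hb t ht (hta.trans hat)).2.2
    have h2 : B * t ≤ κ₀ / 2 := by
      have h3 : t ≤ κ₀ / (2 * B) := hta.trans (min_le_right _ _)
      calc B * t ≤ B * (κ₀ / (2 * B)) := mul_le_mul_of_nonneg_left h3 hB.le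
        _ = κ₀ / 2 := by field_simp
    have h4 := abs_le.1 h1
    linarith [h4.1]
  -- once nonpositive, always nonpositive
  have key : ∀ s t : ℝ, 0 < s → s ≤ t → t ≤ a → y₁ s ≤ 0 → y₁ t ≤ 0 := by
    intro s t hs hst hta hys
    have hlt : ∀ x ∈ Icc s t, 0 < x ∧ x < δ := fun x hx =>
      ⟨hs.trans_le hx.1, by linarith [hx.2]⟩
    refine image_le_of_deriv_right_lt_deriv_boundary (f := y₁)
      (f' := fun x => (6 * y₁ x ^ 2 - κ x) / (2 * y x)) (B := fun _ => 0) (B' := fun _ => 0)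
      (a := s) (b := t) ?_ ?_ hys (fun x => hasDerivAt_const x (0 : ℝ)) ?_ (right_mem_Icc.2 hst)
    · intro x hx
      exact (h.dy1 x (hlt x hx).1 (hlt x hx).2).continuousAt.continuousWithinAt
    · intro x hx
      have hx' := Ico_subset_Icc_self hx
      exact (h.dy1 x (hlt x hx').1 (hlt x hx').2).hasDerivWithinAt
    · intro x hx hx0
      have hx' := Ico_subset_Icc_self hx
      have h1 := hκ x (hlt x hx').1 (hx'.2.trans hta)
      have h2 := h.ypos x (hlt x hx').1 (hlt x hx').2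
      show (6 * y₁ x ^ 2 - κ x) / (2 * y x) < 0
      have h3 : y₁ x = 0 := hx0
      rw [h3]
      apply div_neg_of_neg_of_pos
      · nlinarith
      · positivity
  by_cases hex : ∃ t : ℝ, 0 < t ∧ t ≤ a ∧ 0 < y₁ t
  · obtain ⟨t₂, h1, h2, h3⟩ := hex
    refine ⟨t₂, h1, h2.trans hat, fun t ht htt => ?_⟩
    by_contra hcon
    exact absurd (key t t₂ ht htt h2 (not_lt.1 hcon)) (not_le.2 h3)
  · exfalso
    push Not at hex
    have hanti : AntitoneOn y (Ioc 0 a) := by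
      refine antitoneOn_of_deriv_nonpos (convex_Ioc 0 a) ?_ ?_ ?_
      · intro x hx
        exact (h.dy x hx.1 (by linarith [hx.2])).continuousAt.continuousWithinAt
      · intro x hx
        rw [interior_Ioc] at hx
        exact (h.dy x hx.1 (by linarith [hx.2])).differentiableAt.differentiableWithinAt
      · intro x hx
        rw [interior_Ioc] at hx
        rw [(h.dy x hx.1 (by linarith [hx.2])).deriv]
        exact hex x hx.1 hx.2.le
    have hya : 0 < y a := h.ypos a ha0 (by linarith)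
    have h1 : ∀ᶠ t in 𝓝[>] (0 : ℝ), y a ≤ y t := by
      filter_upwards [Ioc_mem_nhdsGT ha0] with t ht
      exact hanti ht ⟨ha0, le_rfl⟩ ht.2
    have h2 := ge_of_tendsto h.lim h1
    linarith

theorem step2 {y y₁ κ κ₁ : ℝ → ℝ} {δ M : ℝ} (h : YD y y₁ κ κ₁ δ M) {κ₀ ε t₃ : ℝ} (ht₃ : 0 < t₃)
    (ht₃δ : t₃ < δ) (hy : ∀ t : ℝ, 0 < t → t ≤ t₃ → 0 < y₁ t)
    (hk : ∀ t : ℝ, 0 < t → t ≤ t₃ → |κ t - κ₀| ≤ ε) (σ : ℝ) (hσ : |σ| = 1) :
    ∃ C : ℝ, ∀ t : ℝ, 0 < t → t ≤ t₃ → σ * (y₁ t ^ 2 - κ₀ / 6) - ε / 6 ≤ C * y t ^ 6 := by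
  have hder : ∀ t : ℝ, 0 < t → t ≤ t₃ →
      HasDerivAt (fun t => (σ * (y₁ t ^ 2 - κ₀ / 6) - ε / 6) / y t ^ 6)
        (y₁ t * (σ * (κ₀ - κ t) + ε) / y t ^ 7) t := by
    intro t ht htt
    have hyt := h.ypos t ht (by linarith)
    have d1 := h.dy t ht (by linarith)
    have d2 := h.dy1 t ht (by linarith)
    have d3 := (((d2.pow 2).sub_const (κ₀ / 6)).const_mul σ).sub_const (ε / 6)
    have d4 := d3.div (d1.pow 6) (pow_ne_zero 6 hyt.ne')
    refine d4.congr_deriv ?_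
    have hyt' := hyt.ne'
    simp only [Pi.pow_apply]
    field_simp
    ring
  have hmono : MonotoneOn (fun t => (σ * (y₁ t ^ 2 - κ₀ / 6) - ε / 6) / y t ^ 6) (Ioc 0 t₃) := by
    refine monotoneOn_of_deriv_nonneg (convex_Ioc 0 t₃) ?_ ?_ ?_
    · intro x hx
      exact (hder x hx.1 hx.2).continuousAt.continuousWithinAt
    · intro x hx
      rw [interior_Ioc] at hx
      exact (hder x hx.1 hx.2.le).differentiableAt.differentiableWithinAt
    · intro x hx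
      rw [interior_Ioc] at hx
      rw [(hder x hx.1 hx.2.le).deriv]
      have h1 := hy x hx.1 hx.2.le
      have h2 := h.ypos x hx.1 (by linarith [hx.2])
      have h3 : -ε ≤ σ * (κ₀ - κ x) := by
        have h4 : |σ * (κ₀ - κ x)| ≤ ε := by
          rw [abs_mul, hσ, one_mul, abs_sub_comm]
          exact hk x hx.1 hx.2.le
        exact (abs_le.1 h4).1
      have h5 : 0 ≤ σ * (κ₀ - κ x) + ε := by linarith
      positivity
  refine ⟨(σ * (y₁ t₃ ^ 2 - κ₀ / 6) - ε / 6) / y t₃ ^ 6, fun t ht htt => ?_⟩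
  have h1 := hmono ⟨ht, htt⟩ ⟨ht₃, le_rfl⟩ htt
  have h2 := h.ypos t ht (by linarith)
  have h3 : (σ * (y₁ t ^ 2 - κ₀ / 6) - ε / 6) / y t ^ 6 ≤
      (σ * (y₁ t₃ ^ 2 - κ₀ / 6) - ε / 6) / y t₃ ^ 6 := h1
  rwa [div_le_iff₀ (by positivity)] at h3

/-- **GX5-LIM4.** -/
theorem gx_LIM4 : S_LIM4 := by
  intro y y₁ κ κ₁ δ M t₁ B κ₀ h ht₁ ht₁δ hB hκ₀ hb
  obtain ⟨t₂, ht₂, ht₂₁, hy⟩ := step1 h ht₁ ht₁δ hB hκ₀ hb
  have hsq : Tendsto (fun t => y₁ t ^ 2) (𝓝[>] 0) (𝓝 (κ₀ / 6)) := by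
    rw [Metric.tendsto_nhds]
    intro ε hε
    set t₃ : ℝ := min t₂ (ε / B) with ht₃
    have ht₃0 : 0 < t₃ := lt_min ht₂ (by positivity)
    have ht₃2 : t₃ ≤ t₂ := min_le_left _ _
    have hy' : ∀ t : ℝ, 0 < t → t ≤ t₃ → 0 < y₁ t := fun t ht htt => hy t ht (htt.trans ht₃2)
    have hk : ∀ t : ℝ, 0 < t → t ≤ t₃ → |κ t - κ₀| ≤ ε := by
      intro t ht htt
      refine ((hb t ht ((htt.trans ht₃2).trans ht₂₁)).2.2).trans ?_
      calc B * t ≤ B * (ε / B) := mul_le_mul_of_nonneg_left (htt.trans (min_le_right _ _)) hB.le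
        _ = ε := by field_simp
    obtain ⟨C₁, h1⟩ := step2 h ht₃0 (by linarith) hy' hk 1 (by norm_num)
    obtain ⟨C₂, h2⟩ := step2 h ht₃0 (by linarith) hy' hk (-1) (by norm_num)
    have hlim : ∀ C : ℝ, ∀ᶠ t in 𝓝[>] (0 : ℝ), C * y t ^ 6 < ε / 2 := by
      intro C
      have h3 : Tendsto (fun t => C * y t ^ 6) (𝓝[>] 0) (𝓝 (C * 0 ^ 6)) :=
        (h.lim.pow 6).const_mul C
      have h4 : C * (0 : ℝ) ^ 6 < ε / 2 := by
        rw [zero_pow (by norm_num), mul_zero]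
        positivity
      exact h3.eventually_lt_const h4
    filter_upwards [Ioc_mem_nhdsGT ht₃0, hlim C₁, hlim C₂] with t ht e1 e2
    have f1 := h1 t ht.1 ht.2
    have f2 := h2 t ht.1 ht.2
    rw [Real.dist_eq, abs_lt]
    constructor <;> linarith
  have h3 := (Real.continuous_sqrt.tendsto (κ₀ / 6)).comp hsq
  refine h3.congr' ?_
  filter_upwards [Ioc_mem_nhdsGT ht₂] with t ht
  rw [Function.comp, Real.sqrt_sq (hy t ht.1 ht.2).le]

end Pool.Agent.H539.GX
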